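import Pool.Agent.H2.UR1

set_option autoImplicit false

namespace Pool.Agent.Results.MP_a7dadb_al.Counter

open Filter Pool.Agent.H2.UR

abbrev K := HahnSeries ℤ (ZMod 2)
abbrev E := Module.End (ZMod 2) K

noncomputable def mu (n : ℕ) : K →ₗ[ZMod 2] ZMod 2 :=
  HahnSeries.coeff.linearMap 0 + HahnSeries.coeff.linearMap (-((n : ℤ) + 2))

lemma mu_apply (n : ℕ) (f : K) : mu n f = f.coeff 0 + f.coeff (-((n : ℤ) + 2)) := rfl

noncomputable def m0 : K →+* E where
  toFun r := LinearMap.mulLeft (ZMod 2) r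
  map_one' := LinearMap.ext fun f => one_mul f
  map_mul' r s := LinearMap.ext fun f => mul_assoc r s f
  map_zero' := LinearMap.ext fun f => zero_mul f
  map_add' r s := LinearMap.ext fun f => add_mul r s f

lemma m0_apply (r f : K) : m0 r f = r * f := rfl

noncomputable def rho (n : ℕ) (p q : K) : E :=
  (mu n ∘ₗ LinearMap.mulLeft (ZMod 2) q).smulRight p

lemma rho_apply (n : ℕ) (p q f : K) : rho n p q f = mu n (q * f) • p := rfl

lemma rho_mul (n : ℕ) (p q p' q' : K) : rho n p q * rho n p' q' = mu n (q * p') • rho n p q' := by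
  ext1 f
  simp only [Module.End.mul_apply, rho_apply, LinearMap.smul_apply, mul_smul_comm, map_smul,
    smul_smul, smul_eq_mul, mul_comm]

lemma two (x : E) : x + x = 0 := by
  rw [← two_smul (ZMod 2) x, show (2 : ZMod 2) = 0 from rfl, zero_smul]

noncomputable def Dn (n : ℕ) : D K E where
  m := m0
  ρ := rho n
  μ := mu n
  μ1 := by
    have : -((n : ℤ) + 2) ≠ 0 := by omega
    rw [mu_apply, HahnSeries.coeff_one, HahnSeries.coeff_one, if_pos rfl, if_neg this, add_zero]
  addl p p' q := by ext1 f; simp only [rho_apply, LinearMap.add_apply, smul_add]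
  addr p q q' := by ext1 f; simp only [rho_apply, LinearMap.add_apply, add_mul, map_add, add_smul]
  two p q := two _
  h0 p q p' q' h := by rw [rho_mul, h, zero_smul]
  h1 p q p' q' h := by rw [rho_mul, h, one_smul]
  hl r p q := by ext1 f; simp only [Module.End.mul_apply, rho_apply, m0_apply, mul_smul_comm]
  hr r p q := by ext1 f; simp only [Module.End.mul_apply, rho_apply, m0_apply, mul_assoc]

lemma ev0 (f : K) (c : ℤ) : ∀ᶠ n : ℕ in atTop, f.coeff (c - n) = 0 := by
  filter_upwards [eventually_gt_atTop (c - f.order).toNat] with n hn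
  exact HahnSeries.coeff_eq_zero_of_lt_order (by omega)

lemma ev_mu (f : K) : ∀ᶠ n : ℕ in atTop, mu n f = f.coeff 0 := by
  filter_upwards [ev0 f (-2)] with n hn
  rw [mu_apply, show -((n : ℤ) + 2) = -2 - n by ring, hn, add_zero]

noncomputable abbrev ge : (ℕ → E) →+* Germ (atTop : Filter ℕ) E := Germ.coeRingHom atTop

lemma ge_eq {x y : ℕ → E} : ge x = ge y ↔ ∀ᶠ n in atTop, x n = y n := Germ.coe_eq

noncomputable def Di : D K (Germ (atTop : Filter ℕ) E) where
  m := ge.comp ((Pi.constRingHom ℕ E).comp m0)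
  ρ p q := ge fun n => rho n p q
  μ f := f.coeff 0
  μ1 := by simp
  addl p p' q := by rw [← map_add]; exact congrArg ge (funext fun n => (Dn n).addl p p' q)
  addr p q q' := by rw [← map_add]; exact congrArg ge (funext fun n => (Dn n).addr p q q')
  two p q := by rw [← map_add, ← map_zero ge]; exact congrArg ge (funext fun n => two _)
  h0 p q p' q' h := by
    rw [← map_mul, ← map_zero ge, ge_eq]
    filter_upwards [ev_mu (q * p')] with n hn using (Dn n).h0 p q p' q' (hn.trans h)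
  h1 p q p' q' h := by
    rw [← map_mul, ge_eq]
    filter_upwards [ev_mu (q * p')] with n hn using (Dn n).h1 p q p' q' (hn.trans h)
  hl r p q := by
    rw [RingHom.comp_apply, ← map_mul]; exact congrArg ge (funext fun n => (Dn n).hl r p q)
  hr r p q := by
    rw [RingHom.comp_apply, ← map_mul]; exact congrArg ge (funext fun n => (Dn n).hr r p q)

noncomputable def R : Subring (ℕ → E) :=
  (⨅ n, (S (Dn n)).comap (Pi.evalRingHom (fun _ => E) n)) ⊓ (S Di).comap ge

lemma mem_R {x : ℕ → E} : x ∈ R ↔ (∀ n, InS (Dn n) (x n)) ∧ InS Di (ge x) := by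
  simp only [R, Subring.mem_inf, Subring.mem_iInf, Subring.mem_comap]
  rfl

lemma lift {g : Germ (atTop : Filter ℕ) E} (h : InS Di g) :
    ∃ y : ℕ → E, (∀ n, InS (Dn n) (y n)) ∧ ge y = g := by
  induction h with
  | base r => exact ⟨fun _ => m0 r, fun n => InS.base (d := Dn n) r, rfl⟩
  | step p q _ ih =>
    obtain ⟨y, hy, rfl⟩ := ih
    exact ⟨y + fun n => rho n p q, fun n => InS.step (d := Dn n) p q (hy n), map_add ge _ _⟩

lemma R_ur (x : R) : ∃ u : Rˣ, x * u * x = x := by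
  classical
  obtain ⟨h1, h2⟩ := mem_R.1 x.2
  choose u hu v hv e using fun n => (h1 n).ur
  obtain ⟨U, hU, V, hV, e1, e2, e3⟩ := h2.ur
  obtain ⟨a, ha, rfl⟩ := lift hU
  obtain ⟨b, hb, rfl⟩ := lift hV
  rw [← map_mul, ← map_one ge, ge_eq] at e1 e2
  rw [← map_mul, ← map_mul, ge_eq] at e3
  let P : ℕ → Prop := fun n => a n * b n = 1 ∧ b n * a n = 1 ∧ x.1 n * a n * x.1 n = x.1 n
  have hP : ∀ᶠ n in atTop, P n := e1.and (e2.and e3)
  let a' : ℕ → E := fun n => if P n then a n else u n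
  let b' : ℕ → E := fun n => if P n then b n else v n
  have key : ∀ n, InS (Dn n) (a' n) ∧ InS (Dn n) (b' n) ∧ a' n * b' n = 1 ∧ b' n * a' n = 1 ∧
      x.1 n * a' n * x.1 n = x.1 n := fun n => by
    by_cases h : P n
    · simp only [a', b', if_pos h]; exact ⟨ha n, hb n, h⟩
    · simp only [a', b', if_neg h]; exact ⟨hu n, hv n, e n⟩
  have ga : ge a' = ge a := ge_eq.2 (hP.mono fun n h => if_pos h)
  have gb : ge b' = ge b := ge_eq.2 (hP.mono fun n h => if_pos h)
  refine ⟨⟨⟨a', mem_R.2 ⟨fun n => (key n).1, ga ▸ hU⟩⟩, ⟨b', mem_R.2 ⟨fun n => (key n).2.1, gb ▸ hV⟩⟩,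
    Subtype.ext (funext fun n => (key n).2.2.1), Subtype.ext (funext fun n => (key n).2.2.2.1)⟩,
    Subtype.ext (funext fun n => (key n).2.2.2.2)⟩

noncomputable def t (j : ℤ) : K := HahnSeries.single j 1

lemma t_mul (i j : ℤ) : t i * t j = t (i + j) := by simp [t, HahnSeries.single_mul_single]

lemma t_coeff (i j : ℤ) : (t i).coeff j = if j = i then 1 else 0 := by
  rw [t, HahnSeries.coeff_single]; congr

lemma t_mul_coeff (i j : ℤ) (f : K) : (t i * f).coeff j = f.coeff (j - i) := by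
  rw [t, HahnSeries.coeff_single_mul, one_mul]

lemma facts {g : Germ (atTop : Filter ℕ) E} (h : InS Di g) : ∀ w : ℕ → E, ge w = g →
    (∃ r : K, ∀ᶠ n : ℕ in atTop, w n (t (n + 3)) = t (n + 3) * r) ∧
      ∃ y : K, ∀ᶠ n : ℕ in atTop, w n (t 1) = y := by
  induction h with
  | base r =>
    intro w hw
    have hw' : ∀ᶠ n in atTop, w n = m0 r := ge_eq.1 hw
    exact ⟨⟨r, hw'.mono fun n h => by rw [h, m0_apply, mul_comm]⟩,
      ⟨r * t 1, hw'.mono fun n h => by rw [h, m0_apply]⟩⟩
  | step p q _ ih =>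
    intro w hw
    obtain ⟨⟨r, hr⟩, y, hy⟩ := ih (w - fun n => rho n p q) (by rw [map_sub, hw]; exact add_sub_cancel_right _ _)
    refine ⟨⟨r, ?_⟩, y + (q * t 1).coeff 0 • p, ?_⟩
    · filter_upwards [hr, ev0 q (-3), (tendsto_id.const_mul_atTop' two_pos).eventually (ev0 q (-5))]
        with n h1 h2 h3
      rw [Pi.sub_apply, LinearMap.sub_apply, rho_apply, mu_apply, mul_comm q, t_mul_coeff,
        t_mul_coeff, show (0 : ℤ) - (n + 3) = -3 - n by ring, h2,
        show -((n : ℤ) + 2) - (n + 3) = -5 - ((2 * id n : ℕ) : ℤ) by push_cast; simp; ring, h3] at h1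
      simpa using h1
    · filter_upwards [hy, ev_mu (q * t 1)] with n h1 h2
      rw [Pi.sub_apply, LinearMap.sub_apply, rho_apply, h2] at h1
      rw [← h1, sub_add_cancel]

noncomputable def a (n : ℕ) : E := m0 (t 1) + rho n (t 1) 1

lemma a_apply (n : ℕ) (f : K) : a n f = t 1 * f + mu n f • t 1 := by
  simp only [a, LinearMap.add_apply, m0_apply, rho_apply, one_mul]

lemma a_coeff (n : ℕ) (f : K) (j : ℤ) (hj : j ≠ 0) : (a n f).coeff (j + 1) = f.coeff j := by
  rw [a_apply, HahnSeries.coeff_add, t_mul_coeff, HahnSeries.coeff_smul, t_coeff,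
    if_neg (by omega)]
  simp

lemma a_pow_coeff (n k : ℕ) (f : K) (j : ℤ) (hj : 1 ≤ j ∨ j + k ≤ 0) :
    ((a n ^ k) f).coeff (j + k) = f.coeff j := by
  induction k with
  | zero => simp
  | succ k ih =>
    rw [pow_succ', Module.End.mul_apply, Nat.cast_succ, ← add_assoc, a_coeff _ _ _ (by omega),
      ih (by omega)]

lemma z2 (c : ZMod 2) : c + c = 0 := by revert c; decide

lemma k2 (f : K) : f + f = 0 := by
  rw [← two_smul (ZMod 2) f, show (2 : ZMod 2) = 0 from rfl, zero_smul]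

lemma a_t (n : ℕ) (j : ℤ) (h0 : j ≠ 0) (h1 : j ≠ -((n : ℤ) + 2)) : a n (t j) = t (j + 1) := by
  rw [a_apply, mu_apply, t_coeff, t_coeff, if_neg h0.symm, if_neg h1.symm, t_mul, add_comm 1 j]
  simp

lemma a_pow_t (n k : ℕ) : (a n ^ k) (t 1) = t (k + 1) := by
  induction k with
  | zero => simp
  | succ k ih =>
    rw [pow_succ', Module.End.mul_apply, ih, a_t _ _ (by omega) (by omega)]; push_cast; rfl

lemma a_pow_neg (n k : ℕ) (hk : k ≤ n + 1) : (a n ^ (k + 1)) (t (-k)) = 0 := by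
  induction k with
  | zero =>
    have : mu n (t 0) = 1 := (Dn n).μ1
    simp only [zero_add, pow_one, a_apply, Nat.cast_zero, neg_zero, this, t_mul, add_zero, one_smul]
    exact k2 _
  | succ k ih =>
    rw [pow_succ, Module.End.mul_apply, a_t _ _ (by omega) (by omega)]
    rw [show -((k + 1 : ℕ) : ℤ) + 1 = -k by push_cast; ring]
    exact ih (by omega)

lemma main (n : ℕ) (w : E) (r : K) (h : ∀ k, 1 ≤ k → a n ^ k * w ^ k * a n ^ k = a n ^ k)
    (f1 : w (t (n + 3)) = t (n + 3) * r) (f2 : r.coeff (-3 - n) = 0)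
    (f3 : (w (t 1)).coeff (-2 - n) = 0) : False := by
  have hh : ∀ k, 1 ≤ k → ∀ f, (a n ^ k) ((w ^ k) ((a n ^ k) f)) = (a n ^ k) f :=
    fun k hk f => congrArg (fun x : E => x f) (h k hk)
  have h1 : ∀ f, a n (w (a n f)) = a n f := fun f => by simpa using hh 1 le_rfl f
  have F1 : w (t (n + 3)) = t (n + 2) := by
    have e := h1 (t (n + 2))
    rw [a_t n (n + 2) (by omega) (by omega), show (n : ℤ) + 2 + 1 = n + 3 by ring] at e
    ext j
    by_cases hj : j = 0
    · subst hj
      rw [f1, t_mul_coeff, t_coeff, if_neg (by omega), show (0 : ℤ) - (n + 3) = -3 - n by ring, f2]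
    · rw [← a_coeff n _ j hj, e, t_coeff, t_coeff]
      exact if_congr (by omega) rfl rfl
  have aw : ∀ y : K, mu n (t (-1) * y) = 0 → a n (w y) = y := fun y hy => by
    have e : a n (t (-1) * y) = y := by
      rw [a_apply, hy, zero_smul, add_zero, ← mul_assoc, t_mul]
      exact one_mul y
    have := h1 (t (-1) * y)
    rwa [e] at this
  have mu1 : ∀ y : K, mu n (t (-1) * y) = y.coeff 1 + y.coeff (-((n : ℤ) + 1)) := fun y => by
    rw [mu_apply, t_mul_coeff, t_mul_coeff]
    congr 2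
  set y := (w ^ (n + 1)) (t (n + 2)) with hy
  have e1 : (a n ^ (n + 1)) (y - t 1) = 0 := by
    have := hh (n + 1) (by omega) (t 1)
    rw [a_pow_t, show ((n + 1 : ℕ) : ℤ) + 1 = n + 2 by push_cast; ring] at this
    rw [map_sub, this, a_pow_t, show ((n + 1 : ℕ) : ℤ) + 1 = n + 2 by push_cast; ring, sub_self]
  have e2 : a n (w (y - t 1)) = y - t 1 := by
    refine aw _ ?_
    rw [mu1, ← a_pow_coeff n (n + 1) _ 1 (Or.inl le_rfl),
      ← a_pow_coeff n (n + 1) _ (-((n : ℤ) + 1)) (Or.inr (by push_cast; omega)), e1]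
    simp
  have g1 : (a n ^ (n + 3)) (t (-((n : ℤ) + 2))) = t (n + 3) := by
    have : a n (t (-((n : ℤ) + 2))) = t (-((n + 1 : ℕ) : ℤ)) + t 1 := by
      rw [a_apply, mu_apply, t_coeff, t_coeff, if_neg (by omega), if_pos rfl, t_mul, zero_add,
        one_smul]
      congr 2
    rw [pow_succ, Module.End.mul_apply, this, map_add, a_pow_neg n (n + 1) le_rfl, zero_add,
      a_pow_t]
    congr 1
  have e3 := hh (n + 3) (by omega) (t (-((n : ℤ) + 2)))
  rw [g1, pow_succ w, Module.End.mul_apply, F1, pow_succ' w, Module.End.mul_apply, ← hy,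
    pow_succ (a n), Module.End.mul_apply] at e3
  have e4 : a n (w y) = y - t 1 + a n (w (t 1)) := by rw [← e2, map_sub, map_sub, sub_add_cancel]
  rw [e4, map_add, pow_succ' (a n), Module.End.mul_apply, e1, map_zero, zero_add,
    ← pow_succ' (a n)] at e3
  have e5 := a_pow_coeff n (n + 1 + 1) (a n (w (t 1))) 1 (Or.inl le_rfl)
  rw [e3, t_coeff, if_pos (by push_cast; ring)] at e5
  have e6 := a_coeff n (w (t 1)) (-2 - n) (by omega)
  have e7 : mu n (t (-1) * a n (w (t 1))) = 0 := by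
    rw [a_apply, mul_add, ← mul_assoc, mul_smul_comm, t_mul, map_add, map_smul]
    have : t (-1 + 1) = 1 := rfl
    rw [this, one_mul, show mu n 1 = 1 from (Dn n).μ1, smul_eq_mul, mul_one, z2]
  rw [mu1, ← e5, show -((n : ℤ) + 1) = -2 - n + 1 by ring, e6, f3, add_zero] at e7
  exact one_ne_zero e7

/-- A unit-regular ring with an element whose powers have no common inner inverse. -/
theorem result : ∃ (R : Type) (_ : Ring R), (∀ x : R, ∃ u : Rˣ, x * u * x = x) ∧
    ∃ a : R, ∀ w : R, ∃ k : ℕ, 1 ≤ k ∧ a ^ k * w ^ k * a ^ k ≠ a ^ k := by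
  refine ⟨R, inferInstance, R_ur, ⟨a, mem_R.2 ⟨fun n => InS.step (d := Dn n) _ _ (InS.base _), ?_⟩⟩,
    fun w => ?_⟩
  · have := InS.step (d := Di) (t 1) 1 (InS.base (t 1))
    exact this
  · by_contra hc
    push Not at hc
    obtain ⟨⟨r, hr⟩, y, hy⟩ := facts (mem_R.1 w.2).2 w.1 rfl
    obtain ⟨n, h1, h2, h3, h4⟩ := (hr.and (hy.and ((ev0 r (-3)).and (ev0 y (-2))))).exists
    refine main n (w.1 n) r (fun k hk => ?_) h1 h3 (h2 ▸ h4)
    exact congrFun (congrArg Subtype.val (hc k hk)) n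

end Pool.Agent.Results.MP_a7dadb_al.Counter
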